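import Pool.Agent.N783.PQ.Def

/-!
# PQ/EXP: the inequalities for the exponents (helper747, after `N401/PJ/Exp.lean` of helper401)
-/

set_option autoImplicit false
set_option linter.all false

open Finset

namespace Pool.Agent.N747.PQ

open Pool.Agent.N783.PQ
open Pool.Agent.N352.PJ (Typ dd)

/-- from pairs of indices to double sums over natural numbers -/
theorem conv (n : ℕ) (c : ℕ → ℕ → Prop) [∀ i j, Decidable (c i j)] (f : ℕ → ℕ → ℤ) :
    ∑ p ∈ (univ : Finset (Fin n × Fin n)).filter (fun p => c p.1 p.2), f p.1 p.2 =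
      ∑ i ∈ range n, ∑ j ∈ range n, if c i j then f i j else 0 := by
  rw [Finset.sum_filter, Fintype.sum_prod_type, Finset.sum_range]
  refine Finset.sum_congr rfl fun i _ => ?_
  rw [Finset.sum_range]

theorem sum_succ (n : ℕ) : 2 * ∑ j ∈ range n, (j + 1) = n * (n + 1) := by
  induction n with
  | zero => rfl
  | succ n ih => rw [sum_range_succ, mul_add, ih]; ring

/-- the number of pairs `i ≤ j` -/
theorem cardP (g : ℕ) : ∑ i ∈ range (2 * g + 1), ∑ j ∈ range (2 * g + 1),
    (if i ≤ j then (1 : ℤ) else 0) = (dd g : ℤ) + 1 := by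
  have h1 : ∀ i ∈ range (2 * g + 1), ∑ j ∈ range (2 * g + 1),
      (if i ≤ j then (1 : ℤ) else 0) = ((2 * g + 1 - i : ℕ) : ℤ) := by
    intro i hi
    rw [← Finset.sum_filter, Finset.sum_const, nsmul_eq_mul, mul_one]
    congr 1
    have : (range (2 * g + 1)).filter (fun j => i ≤ j) = Ico i (2 * g + 1) := by
      ext j
      rw [mem_filter, mem_range, mem_Ico]
      omega
    rw [this, Nat.card_Ico]
  rw [Finset.sum_congr rfl h1, ← Nat.cast_sum]
  have h3 : ∑ i ∈ range (2 * g + 1), (2 * g + 1 - i) = ∑ i ∈ range (2 * g + 1), (i + 1) := by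
    rw [← Finset.sum_range_reflect (fun i => i + 1) (2 * g + 1)]
    refine Finset.sum_congr rfl fun i hi => ?_
    rw [mem_range] at hi
    omega
  have h4 := sum_succ (2 * g + 1)
  rw [h3]
  have h5 : (2 : ℤ) * ((∑ i ∈ range (2 * g + 1), (i + 1) : ℕ) : ℤ) =
      (2 * g + 1) * (2 * g + 1 + 1) := by exact_mod_cast h4
  unfold dd
  push_cast at h5 ⊢
  linarith

/-- the type as a function of the natural numbers -/
structure Seq (g : ℕ) (w : Fin (2 * g + 1) → ℤ) (s : ℕ → ℤ) : Prop where
  hs : ∀ i : Fin (2 * g + 1), w i = - s i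
  anti : ∀ i j : ℕ, i ≤ j → j ≤ 2 * g → s j ≤ s i
  rev : ∀ i : ℕ, i ≤ 2 * g → s (2 * g - i) = - s i
  mid : s g = 0

theorem exists_seq {g : ℕ} {w : Fin (2 * g + 1) → ℤ} (hw : Typ g w) : ∃ s, Seq g w s := by
  obtain ⟨s, hs⟩ : ∃ s : ℕ → ℤ, ∀ i : Fin (2 * g + 1), w i = - s i := by
    refine ⟨fun n => if h : n < 2 * g + 1 then - w ⟨n, h⟩ else 0, fun i => ?_⟩
    simp [i.2]
  have hanti : ∀ i j : ℕ, i ≤ j → j ≤ 2 * g → s j ≤ s i := by
    intro i j hij hj
    have h1 := hw.mono (show (⟨i, by omega⟩ : Fin (2 * g + 1)) ≤ ⟨j, by omega⟩ from hij)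
    rw [hs, hs] at h1
    simpa using h1
  have hrev : ∀ i : ℕ, i ≤ 2 * g → s (2 * g - i) = - s i := by
    intro i hi
    have h1 := hw.anti ⟨i, by omega⟩
    rw [hs, hs, Fin.val_rev] at h1
    have h2 : 2 * g + 1 - (i + 1) = 2 * g - i := by omega
    simp only [h2] at h1
    linarith
  refine ⟨s, hs, hanti, hrev, ?_⟩
  have h1 := hrev g (by omega)
  have h2 : 2 * g - g = g := by omega
  rw [h2] at h1
  linarith

/-- a sum over pairs which is changed into its negative by the reflection -/
theorem refl_sum {g : ℕ} {s : ℕ → ℤ} (hrev : ∀ i : ℕ, i ≤ 2 * g → s (2 * g - i) = - s i) :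
    ∑ i ∈ range (2 * g + 1), ∑ j ∈ range (2 * g + 1), (if i ≤ j then (s i + s j) else 0) = 0 := by
  rw [← conv (2 * g + 1) (fun i j => i ≤ j) (fun i j => s i + s j)]
  have h1 : ∑ p ∈ (univ : Finset (Fin (2 * g + 1) × Fin (2 * g + 1))).filter
      (fun p => (p.1 : ℕ) ≤ p.2), (s p.1 + s p.2) =
      ∑ p ∈ (univ : Finset (Fin (2 * g + 1) × Fin (2 * g + 1))).filter
      (fun p => (p.1 : ℕ) ≤ p.2), -(s p.1 + s p.2) := by
    refine Finset.sum_nbij' (fun p => (Fin.rev p.2, Fin.rev p.1))
      (fun p => (Fin.rev p.2, Fin.rev p.1)) ?_ ?_ ?_ ?_ ?_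
    · intro p hp
      rw [Finset.mem_filter] at hp ⊢
      have h2 := p.1.2
      have h3 := p.2.2
      simp only [Fin.val_rev, mem_univ, true_and] at hp ⊢
      omega
    · intro p hp
      rw [Finset.mem_filter] at hp ⊢
      have h2 := p.1.2
      have h3 := p.2.2
      simp only [Fin.val_rev, mem_univ, true_and] at hp ⊢
      omega
    · intro p _; simp
    · intro p _; simp
    · intro p _
      have h2 := hrev p.1 (by have := p.1.2; omega)
      have h3 := hrev p.2 (by have := p.2.2; omega)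
      simp only [Fin.val_rev]
      have h4 : 2 * g + 1 - ((p.1 : ℕ) + 1) = 2 * g - p.1 := by omega
      have h5 : 2 * g + 1 - ((p.2 : ℕ) + 1) = 2 * g - p.2 := by omega
      rw [h4, h5, h2, h3]
      ring
  rw [Finset.sum_neg_distrib] at h1
  linarith

theorem refl_sum2 {g : ℕ} {s : ℕ → ℤ} (hrev : ∀ i : ℕ, i ≤ 2 * g → s (2 * g - i) = - s i) :
    ∑ i ∈ range (2 * g + 1), ∑ j ∈ range (2 * g + 1),
      (if i < j ∧ i + j < 2 * g then s j else 0) = 0 := by
  rw [← conv (2 * g + 1) (fun i j => i < j ∧ i + j < 2 * g) (fun i j => s j)]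
  have h1 : ∑ p ∈ (univ : Finset (Fin (2 * g + 1) × Fin (2 * g + 1))).filter
      (fun p => (p.1 : ℕ) < p.2 ∧ (p.1 : ℕ) + p.2 < 2 * g), s p.2 =
      ∑ p ∈ (univ : Finset (Fin (2 * g + 1) × Fin (2 * g + 1))).filter
      (fun p => (p.1 : ℕ) < p.2 ∧ (p.1 : ℕ) + p.2 < 2 * g), -s p.2 := by
    refine Finset.sum_nbij' (fun p => (p.1, Fin.rev p.2))
      (fun p => (p.1, Fin.rev p.2)) ?_ ?_ ?_ ?_ ?_
    · intro p hp
      rw [Finset.mem_filter] at hp ⊢
      have h2 := p.1.2
      have h3 := p.2.2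
      simp only [Fin.val_rev, mem_univ, true_and] at hp ⊢
      omega
    · intro p hp
      rw [Finset.mem_filter] at hp ⊢
      have h2 := p.1.2
      have h3 := p.2.2
      simp only [Fin.val_rev, mem_univ, true_and] at hp ⊢
      omega
    · intro p _; simp
    · intro p _; simp
    · intro p _
      have h3 := hrev p.2 (by have := p.2.2; omega)
      simp only [Fin.val_rev]
      have h5 : 2 * g + 1 - ((p.2 : ℕ) + 1) = 2 * g - p.2 := by omega
      rw [h5, h3]
      ring
  rw [Finset.sum_neg_distrib] at h1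
  linarith

/-! ### The exponents as double sums -/

theorem eB_eq {g N : ℕ} {w : Fin (2 * g + 1) → ℤ} {s : ℕ → ℤ} (h : Seq g w s) :
    (eB g N w : ℤ) = 2 * N * dd g + 2 * N + ∑ i ∈ range (2 * g + 1), ∑ j ∈ range (2 * g + 1),
      if i ≤ j then max (s i + s j - 2 * N) 0 else 0 := by
  have hee : (eB g N w : ℤ) = ∑ i ∈ range (2 * g + 1), ∑ j ∈ range (2 * g + 1),
      if i ≤ j then (2 * N - (s i + s j)) + max (s i + s j - 2 * N) 0 else 0 := by
    rw [← conv (2 * g + 1) (fun i j => i ≤ j)
      (fun i j => (2 * N - (s i + s j)) + max (s i + s j - 2 * N) 0)]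
    unfold eB
    push_cast
    refine Finset.sum_congr (by ext p; simp) fun p _ => ?_
    rw [h.hs, h.hs]
    omega
  have h1 : ∑ i ∈ range (2 * g + 1), ∑ j ∈ range (2 * g + 1),
      (if i ≤ j then
        (2 * N - (s i + s j)) + max (s i + s j - 2 * N) 0 else 0) =
      ∑ i ∈ range (2 * g + 1), ((2 * N) * (∑ j ∈ range (2 * g + 1),
        if i ≤ j then (1 : ℤ) else 0) + ∑ j ∈ range (2 * g + 1),
        if i ≤ j then max (s i + s j - 2 * N) 0 else 0) -
      ∑ i ∈ range (2 * g + 1), ∑ j ∈ range (2 * g + 1),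
        (if i ≤ j then (s i + s j) else 0) := by
    rw [← Finset.sum_sub_distrib]
    refine Finset.sum_congr rfl fun i _ => ?_
    rw [Finset.mul_sum, ← Finset.sum_add_distrib, ← Finset.sum_sub_distrib]
    refine Finset.sum_congr rfl fun j _ => ?_
    split_ifs <;> ring
  rw [hee, h1, refl_sum h.rev, sub_zero, Finset.sum_add_distrib, ← Finset.mul_sum, cardP]
  ring

theorem uu_sum {g : ℕ} {w : Fin (2 * g + 1) → ℤ} {s : ℕ → ℤ} (h : Seq g w s) :
    (uu g w : ℤ) = ∑ i ∈ range (2 * g + 1), ∑ j ∈ range (2 * g + 1),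
      if i < j ∧ i + j < 2 * g then (s i - s j) else 0 := by
  rw [← conv (2 * g + 1) (fun i j => i < j ∧ i + j < 2 * g) (fun i j => s i - s j)]
  unfold uu
  push_cast
  refine Finset.sum_congr (by ext p; simp) fun p hp => ?_
  rw [Finset.mem_filter] at hp
  have h1 := h.anti p.1 p.2 (le_of_lt hp.2.1) (by have := p.2.2; omega)
  rw [h.hs, h.hs]
  omega

theorem uu_eq {g : ℕ} {w : Fin (2 * g + 1) → ℤ} {s : ℕ → ℤ} (h : Seq g w s) :
    (uu g w : ℤ) = ∑ i ∈ range (2 * g + 1), ∑ j ∈ range (2 * g + 1),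
      if i < j ∧ i + j < 2 * g then (s i + s j) else 0 := by
  have h1 : ∑ i ∈ range (2 * g + 1), ∑ j ∈ range (2 * g + 1),
      (if i < j ∧ i + j < 2 * g then (s i - s j) else 0) =
      (∑ i ∈ range (2 * g + 1), ∑ j ∈ range (2 * g + 1),
        if i < j ∧ i + j < 2 * g then (s i + s j) else 0) -
      2 * ∑ i ∈ range (2 * g + 1), ∑ j ∈ range (2 * g + 1),
        (if i < j ∧ i + j < 2 * g then s j else 0) := by
    rw [Finset.mul_sum, ← Finset.sum_sub_distrib]
    refine Finset.sum_congr rfl fun i _ => ?_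
    rw [Finset.mul_sum, ← Finset.sum_sub_distrib]
    refine Finset.sum_congr rfl fun j _ => ?_
    split_ifs <;> ring
  rw [uu_sum h, h1, refl_sum2 h.rev]
  ring

/-! ### The rows -/

theorem hzero {g N : ℕ} {w : Fin (2 * g + 1) → ℤ} {s : ℕ → ℤ} (h : Seq g w s)
    (hgap : ∀ i : ℕ, i + 1 ≤ 2 * g → s i ≤ s (i + 1) + 2 * N) {i : ℕ} (hi : i ≤ 2 * g) {j : ℕ}
    (hij : i ≤ j) (hj : j ≤ 2 * g) (h1 : 2 * g ≤ i + j + 1) : max (s i + s j - 2 * N) 0 = 0 := by
  have hN : (0 : ℤ) ≤ N := Int.natCast_nonneg _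
  apply max_eq_right
  by_cases h2 : 2 * g ≤ i + j
  · have h3 := h.anti (2 * g - i) j (by omega) hj
    rw [h.rev i (by omega)] at h3
    linarith
  · have h3 : j + 1 = 2 * g - i := by omega
    have h4 := hgap j (by omega)
    rw [h3, h.rev i (by omega)] at h4
    linarith

/-- The sums of the rows. `e i j` is an additional term at the place `(i, j)`. -/
theorem rows {g N : ℕ} {w : Fin (2 * g + 1) → ℤ} {s : ℕ → ℤ} (h : Seq g w s)
    (hgap : ∀ i : ℕ, i + 1 ≤ 2 * g → s i ≤ s (i + 1) + 2 * N) (E : ℕ → ℤ) (J : ℕ → ℕ)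
    (hJ : ∀ i < g, i + 1 ≤ J i ∧ J i < 2 * g - i)
    (hE : ∀ i < g, max (s i + s (J i - 1) - 2 * N) 0 + E i ≤ s i + s (J i)) :
    ∑ i ∈ range (2 * g + 1), ∑ j ∈ range (2 * g + 1),
      (if i ≤ j then max (s i + s j - 2 * N) 0 else 0) + ∑ i ∈ range g, E i ≤
    ∑ i ∈ range (2 * g + 1), ∑ j ∈ range (2 * g + 1),
      if i < j ∧ i + j < 2 * g then (s i + s j) else 0 := by
  have hmin : ∑ i ∈ range g, E i = ∑ i ∈ range (2 * g + 1), if i < g then E i else 0 := by
    rw [← Finset.sum_filter]
    refine Finset.sum_congr ?_ fun _ _ => rfl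
    ext i
    rw [mem_filter, mem_range, mem_range]
    omega
  rw [hmin, ← Finset.sum_add_distrib]
  refine Finset.sum_le_sum fun i hi => ?_
  rw [mem_range] at hi
  by_cases hig : i < g
  · rw [if_pos hig]
    have hL : ∑ j ∈ range (2 * g + 1), (if i ≤ j then
        max (s i + s j - 2 * N) 0 else 0) =
        ∑ j ∈ Ico i (2 * g - i - 1), max (s i + s j - 2 * N) 0 := by
      rw [← Finset.sum_filter]
      symm
      apply Finset.sum_subset
      · intro j hj
        rw [mem_Ico] at hj
        rw [mem_filter, mem_range]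
        omega
      · intro j hj hj'
        rw [mem_filter, mem_range] at hj
        rw [mem_Ico] at hj'
        exact hzero h hgap (by omega) hj.2 (by omega) (by omega)
    have hL2 : ∑ j ∈ Ico i (2 * g - i - 1), max (s i + s j - 2 * N) 0 =
        ∑ j ∈ Ico (i + 1) (2 * g - i), max (s i + s (j - 1) - 2 * N) 0 := by
      have h1 := Finset.sum_Ico_add' (fun j => max (s i + s (j - 1) - 2 * N) 0) i
        (2 * g - i - 1) 1
      have h2 : 2 * g - i - 1 + 1 = 2 * g - i := by omega
      rw [h2] at h1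
      rw [← h1]
      refine Finset.sum_congr rfl fun j _ => ?_
      rw [Nat.add_sub_cancel]
    have hR : ∑ j ∈ range (2 * g + 1), (if i < j ∧ i + j < 2 * g then (s i + s j) else 0) =
        ∑ j ∈ Ico (i + 1) (2 * g - i), (s i + s j) := by
      rw [← Finset.sum_filter]
      refine Finset.sum_congr ?_ fun _ _ => rfl
      ext j
      rw [mem_filter, mem_range, mem_Ico]
      omega
    have hM : E i = ∑ j ∈ Ico (i + 1) (2 * g - i), if j = J i then E i else 0 := by
      rw [Finset.sum_ite_eq' (Ico (i + 1) (2 * g - i)) (J i), if_pos (mem_Ico.2 (hJ i hig))]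
    rw [hL, hL2, hR]
    calc ∑ j ∈ Ico (i + 1) (2 * g - i), max (s i + s (j - 1) - 2 * N) 0 + E i
        = ∑ j ∈ Ico (i + 1) (2 * g - i), (max (s i + s (j - 1) - 2 * N) 0 +
          if j = J i then E i else 0) := by
          rw [Finset.sum_add_distrib, ← hM]
      _ ≤ _ := by
          refine Finset.sum_le_sum fun j hj => ?_
          rw [mem_Ico] at hj
          by_cases hjg : j = J i
          · rw [if_pos hjg, hjg]
            exact hE i hig
          · rw [if_neg hjg]
            have h1 := hgap (j - 1) (by omega)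
            have h2 : j - 1 + 1 = j := by omega
            rw [h2] at h1
            have h3 := h.anti j (2 * g - i) (by omega) (by omega)
            rw [h.rev i (by omega)] at h3
            omega
  · rw [if_neg hig, add_zero]
    have hL : ∑ j ∈ range (2 * g + 1), (if i ≤ j then
        max (s i + s j - 2 * N) 0 else 0) = 0 := by
      apply Finset.sum_eq_zero
      intro j hj
      rw [mem_range] at hj
      split_ifs with h1
      · exact hzero h hgap (by omega) h1 (by omega) (by omega)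
      · rfl
    have hR : ∑ j ∈ range (2 * g + 1), (if i < j ∧ i + j < 2 * g then (s i + s j) else 0) =
        0 := by
      apply Finset.sum_eq_zero
      intro j _
      rw [if_neg (by omega)]
    rw [hL, hR]

theorem gap_seq {g N : ℕ} {w : Fin (2 * g + 1) → ℤ} {s : ℕ → ℤ} (h : Seq g w s)
    (hr : Gap g N w) : ∀ i : ℕ, i + 1 ≤ 2 * g → s i ≤ s (i + 1) + 2 * N := by
  intro i hi
  have h1 := hr ⟨i, by omega⟩ ⟨i + 1, by omega⟩ rfl
  rw [h.hs, h.hs] at h1
  simp only at h1
  linarith

theorem exp1 : S_EXP1 := by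
  intro g N w hg1 hw hr hm
  obtain ⟨s, h⟩ := exists_seq hw
  have hgap := gap_seq h hr
  have hmid : ∀ i : ℕ, i + 1 = g → s i ≤ N := by
    intro i hi
    have h1 := hm ⟨i, by omega⟩ hi
    rw [h.hs] at h1
    simpa using h1
  have hN : (0 : ℤ) ≤ N := Int.natCast_nonneg _
  have hmin : ∑ i ∈ Finset.univ.filter (fun i : Fin (2 * g + 1) => (i : ℕ) < g), min (- w i) N =
      ∑ i ∈ range g, min (s i) (N : ℤ) := by
    have e : ∑ i ∈ range g, min (s i) (N : ℤ) =
        ∑ i ∈ range (2 * g + 1), if i < g then min (s i) (N : ℤ) else 0 := by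
      rw [← Finset.sum_filter]
      refine Finset.sum_congr ?_ fun _ _ => rfl
      ext i
      rw [mem_filter, mem_range, mem_range]
      omega
    rw [e, Finset.sum_filter, Finset.sum_range]
    refine Finset.sum_congr rfl fun i _ => ?_
    rw [h.hs, neg_neg]
  have hfin := rows (N := N) h hgap (fun i => min (s i) (N : ℤ)) (fun _ => g)
    (fun i hi => ⟨by omega, by omega⟩) (by
      intro i hi
      rw [h.mid]
      have h1 := hmid (g - 1) (by omega)
      have h3 : 0 ≤ s i := by
        rw [← h.mid]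
        exact h.anti i g (by omega) (by omega)
      show max (s i + s (g - 1) - 2 * N) 0 + min (s i) (N : ℤ) ≤ s i + 0
      omega)
  rw [eB_eq h, uu_eq h, hmin]
  linarith

theorem exp2 : S_EXP2 := by
  intro g N w hg1 hw hr hm
  obtain ⟨s, h⟩ := exists_seq hw
  have hgap := gap_seq h hr
  have hmid : (N : ℤ) < s (g - 1) := by
    unfold Mid at hm
    push Not at hm
    obtain ⟨i, hi, h1⟩ := hm
    rw [h.hs, neg_neg] at h1
    have : (i : ℕ) = g - 1 := by omega
    rwa [this] at h1
  have hN : (0 : ℤ) ≤ N := Int.natCast_nonneg _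
  have hsum : ∑ i ∈ range g, (2 * (N : ℤ) - (s i - s (i + 1))) = 2 * N * g - s 0 := by
    rw [Finset.sum_sub_distrib, Finset.sum_range_sub', h.mid, Finset.sum_const, card_range,
      nsmul_eq_mul]
    ring
  have hfin := rows (N := N) h hgap (fun i => 2 * (N : ℤ) - (s i - s (i + 1))) (fun i => i + 1)
    (fun i hi => ⟨le_refl _, by omega⟩) (by
      intro i hi
      have h1 := h.anti i (g - 1) (by omega) (by omega)
      show max (s i + s (i + 1 - 1) - 2 * N) 0 + (2 * (N : ℤ) - (s i - s (i + 1))) ≤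
        s i + s (i + 1)
      rw [Nat.add_sub_cancel]
      omega)
  rw [hsum] at hfin
  have h0 : w 0 = - s 0 := by
    have := h.hs 0
    simpa using this
  rw [eB_eq h, uu_eq h, h0]
  linarith

theorem ide : S_IDE := by
  intro g w hw
  obtain ⟨s, h⟩ := exists_seq hw
  have key : (eU g w : ℤ) = (eA g w : ℤ) + (uu g w : ℤ) := by
    have hU : (eU g w : ℤ) = ∑ i ∈ range (2 * g + 1), ∑ j ∈ range (2 * g + 1),
        if i < j then (s i - s j) else 0 := by
      rw [← conv (2 * g + 1) (fun i j => i < j) (fun i j => s i - s j)]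
      unfold eU
      push_cast
      refine Finset.sum_congr (by ext p; simp) fun p hp => ?_
      rw [Finset.mem_filter] at hp
      have h1 := h.anti p.1 p.2 (le_of_lt hp.2) (by have := p.2.2; omega)
      rw [h.hs, h.hs]
      omega
    have hA : (eA g w : ℤ) = ∑ i ∈ range (2 * g + 1), ∑ j ∈ range (2 * g + 1),
        if i ≤ j ∧ 2 * g ≤ i + j then (-s i - s j) else 0 := by
      have e : (eA g w : ℤ) = ∑ i ∈ range (2 * g + 1), ∑ j ∈ range (2 * g + 1),
          if i ≤ j then max (-s i - s j) 0 else 0 := by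
        rw [← conv (2 * g + 1) (fun i j => i ≤ j) (fun i j => max (-s i - s j) 0)]
        unfold eA
        push_cast
        refine Finset.sum_congr (by ext p; simp) fun p hp => ?_
        rw [h.hs, h.hs]
        omega
      rw [e]
      refine Finset.sum_congr rfl fun i hi => Finset.sum_congr rfl fun j hj => ?_
      rw [mem_range] at hi hj
      by_cases h1 : i ≤ j
      · by_cases h2 : 2 * g ≤ i + j
        · rw [if_pos h1, if_pos ⟨h1, h2⟩]
          have h3 := h.anti (2 * g - i) j (by omega) (by omega)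
          rw [h.rev i (by omega)] at h3
          omega
        · rw [if_pos h1, if_neg (fun h' => h2 h'.2)]
          have h3 := h.anti j (2 * g - i) (by omega) (by omega)
          rw [h.rev i (by omega)] at h3
          omega
      · rw [if_neg h1, if_neg (fun h' => h1 h'.1)]
    -- reflections
    have hR1 : ∑ i ∈ range (2 * g + 1), ∑ j ∈ range (2 * g + 1),
        (if i ≤ j ∧ 2 * g ≤ i + j then (-s i - s j) else 0) =
        ∑ i ∈ range (2 * g + 1), ∑ j ∈ range (2 * g + 1),
        (if i ≤ j ∧ i + j ≤ 2 * g then (s i - s j) else 0) := by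
      rw [← conv (2 * g + 1) (fun i j => i ≤ j ∧ 2 * g ≤ i + j) (fun i j => -s i - s j),
        ← conv (2 * g + 1) (fun i j => i ≤ j ∧ i + j ≤ 2 * g) (fun i j => s i - s j)]
      refine Finset.sum_nbij' (fun p => (Fin.rev p.2, p.1)) (fun p => (p.2, Fin.rev p.1))
        ?_ ?_ ?_ ?_ ?_
      · intro p hp
        rw [Finset.mem_filter] at hp ⊢
        have h2 := p.1.2
        have h3 := p.2.2
        simp only [Fin.val_rev, mem_univ, true_and] at hp ⊢
        omega
      · intro p hp
        rw [Finset.mem_filter] at hp ⊢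
        have h2 := p.1.2
        have h3 := p.2.2
        simp only [Fin.val_rev, mem_univ, true_and] at hp ⊢
        omega
      · intro p _; simp
      · intro p _; simp
      · intro p _
        have h3 := h.rev p.2 (by have := p.2.2; omega)
        simp only [Fin.val_rev]
        have h5 : 2 * g + 1 - ((p.2 : ℕ) + 1) = 2 * g - p.2 := by omega
        rw [h5, h3]
        ring
    have hR2 : ∑ i ∈ range (2 * g + 1), ∑ j ∈ range (2 * g + 1),
        (if i < j ∧ 2 * g ≤ i + j then (s i - s j) else 0) =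
        ∑ i ∈ range (2 * g + 1), ∑ j ∈ range (2 * g + 1),
        (if i < j ∧ i + j ≤ 2 * g then (s i - s j) else 0) := by
      rw [← conv (2 * g + 1) (fun i j => i < j ∧ 2 * g ≤ i + j) (fun i j => s i - s j),
        ← conv (2 * g + 1) (fun i j => i < j ∧ i + j ≤ 2 * g) (fun i j => s i - s j)]
      refine Finset.sum_nbij' (fun p => (Fin.rev p.2, Fin.rev p.1))
        (fun p => (Fin.rev p.2, Fin.rev p.1)) ?_ ?_ ?_ ?_ ?_
      · intro p hp
        rw [Finset.mem_filter] at hp ⊢
        have h2 := p.1.2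
        have h3 := p.2.2
        simp only [Fin.val_rev, mem_univ, true_and] at hp ⊢
        omega
      · intro p hp
        rw [Finset.mem_filter] at hp ⊢
        have h2 := p.1.2
        have h3 := p.2.2
        simp only [Fin.val_rev, mem_univ, true_and] at hp ⊢
        omega
      · intro p _; simp
      · intro p _; simp
      · intro p _
        have h2 := h.rev p.1 (by have := p.1.2; omega)
        have h3 := h.rev p.2 (by have := p.2.2; omega)
        simp only [Fin.val_rev]
        have h4 : 2 * g + 1 - ((p.1 : ℕ) + 1) = 2 * g - p.1 := by omega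
        have h5 : 2 * g + 1 - ((p.2 : ℕ) + 1) = 2 * g - p.2 := by omega
        rw [h4, h5, h2, h3]
        ring
    have hD : ∑ i ∈ range (2 * g + 1), ∑ j ∈ range (2 * g + 1),
        (if i ≤ j ∧ i + j ≤ 2 * g then (s i - s j) else 0) =
        ∑ i ∈ range (2 * g + 1), ∑ j ∈ range (2 * g + 1),
        (if i < j ∧ i + j ≤ 2 * g then (s i - s j) else 0) := by
      refine Finset.sum_congr rfl fun i hi => Finset.sum_congr rfl fun j hj => ?_
      by_cases hij : i = j
      · subst hij
        simp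
      · have : i ≤ j ↔ i < j := by omega
        simp only [this]
    rw [hU, hA, uu_sum h, hR1, hD, ← hR2, ← Finset.sum_add_distrib]
    refine Finset.sum_congr rfl fun i hi => ?_
    rw [← Finset.sum_add_distrib]
    refine Finset.sum_congr rfl fun j hj => ?_
    by_cases h1 : i < j
    · by_cases h2 : i + j < 2 * g
      · rw [if_pos h1, if_neg (by omega), if_pos ⟨h1, h2⟩]
        ring
      · rw [if_pos h1, if_pos ⟨h1, by omega⟩, if_neg (by omega)]
        ring
    · rw [if_neg h1, if_neg (fun h' => h1 h'.1), if_neg (fun h' => h1 h'.1)]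
      ring
  exact_mod_cast key

end Pool.Agent.N747.PQ
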