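import Pool.Agent.N922.PQ.Lat

/-!
# The two primes over `Q` (project PQ of helper922)

By helper747, after `Pool/Agent/N862/PP/Exq.lean` of helper862. The main theorem is
`exq : S_INT → S_EXQ`.
-/

set_option autoImplicit false
set_option linter.all false

open IsDedekindDomain WithZero
open scoped Classical

namespace Pool.Agent.N747.PQ

open Pool.Agent.N922.PQ
open Pool.Agent.N874.PP (Ev)

section basic

variable {L : Type} [Field L] [CharZero L] {a b : ℤ} {θ : L}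

/-- Uniqueness of coordinates. -/
theorem crd_uniq (h : IsCub a b θ) {v w : Fin 3 → ℤ} {x : L} (hv : Crd θ v x)
    (hw : Crd θ w x) : v = w := by
  have hli := h.basis.linearIndependent
  have h0 : ∑ i, ((v i : ℚ) - (w i : ℚ)) • h.basis i = 0 := by
    have e : ∀ u : Fin 3 → ℤ, ∑ i, (u i : ℚ) • h.basis i =
        (u 0 : L) + (u 1 : L) * θ + (u 2 : L) * θ ^ 2 := by
      intro u
      simp only [Fin.sum_univ_three, h.basis_apply, vec, Matrix.cons_val_zero, Matrix.cons_val_one,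
        Matrix.cons_val, Rat.smul_def, Rat.cast_intCast, mul_one]
    simp only [sub_smul, Finset.sum_sub_distrib, e]
    rw [← hv, ← hw, sub_self]
  rw [Fintype.linearIndependent_iff] at hli
  funext i
  have h1 := sub_eq_zero.mp (hli _ h0 i)
  exact_mod_cast h1

theorem crd_mul_theta (h : IsCub a b θ) {v : Fin 3 → ℤ} {x : L} (hv : Crd θ v x) :
    Crd θ ![-b * v 2, v 0 - a * v 2, v 1] (θ * x) := by
  have hr := h.root
  unfold Crd at *
  simp only [Matrix.cons_val_zero, Matrix.cons_val_one, Matrix.cons_val]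
  push_cast
  rw [hv]
  linear_combination (v 2 : L) * hr

theorem crd_mul_sq (h : IsCub a b θ) {v : Fin 3 → ℤ} {x : L} (hv : Crd θ v x) :
    Crd θ ![a * v 0 - b * v 1, - b * v 2, v 0] ((θ ^ 2 + (a : L)) * x) := by
  have hr := h.root
  unfold Crd at *
  simp only [Matrix.cons_val_zero, Matrix.cons_val_one, Matrix.cons_val]
  push_cast
  rw [hv]
  linear_combination ((v 1 : L) + (v 2 : L) * θ) * hr

theorem crd_smul {v : Fin 3 → ℤ} {x : L} (c : ℤ) (hv : Crd θ v x) :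
    Crd θ (fun i => c * v i) ((c : L) * x) := by
  unfold Crd at *
  rw [hv]
  push_cast
  ring

theorem crd_add {v w : Fin 3 → ℤ} {x y : L} (hv : Crd θ v x) (hw : Crd θ w y) :
    Crd θ (fun i => v i + w i) (x + y) := by
  unfold Crd at *
  rw [hv, hw]
  push_cast
  ring

theorem crd_one : Crd θ ![1, 0, 0] (1 : L) := by
  unfold Crd
  simp

variable {O : Type} [CommRing O] [IsDedekindDomain O] [Algebra O L] [IsFractionRing O L]
  [IsIntegralClosure O ℤ L]

/-- `θ` as an element of `O`. -/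
theorem exists_theta (h : IsCub a b θ) : ∃ t : O, algebraMap O L t = θ ∧
    t ^ 3 + (a : O) * t + (b : O) = 0 := by
  have hint : IsIntegral ℤ θ := by
    refine ⟨Polynomial.X ^ 3 + Polynomial.C a * Polynomial.X + Polynomial.C b, ?_, ?_⟩
    · monicity!
    · simp only [Polynomial.eval₂_add, Polynomial.eval₂_mul, Polynomial.eval₂_pow,
        Polynomial.eval₂_X, Polynomial.eval₂_C]
      have := h.root
      simpa using this
  obtain ⟨t, ht⟩ := IsIntegralClosure.isIntegral_iff (A := O).mp hint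
  refine ⟨t, ht, ?_⟩
  apply IsFractionRing.injective O L
  simp only [map_add, map_mul, map_pow, ht, map_zero, map_intCast]
  exact h.root

theorem isInt (x : O) : IsIntegral ℤ (algebraMap O L x) :=
  (IsIntegralClosure.isIntegral_iff (R := ℤ) (A := O)).mpr ⟨x, rfl⟩

/-- a prime over `Q` meets `ℤ` in `(Q)` -/
theorem ov_iff {Q : ℤ} (hQ : Prime Q) {𝔓 : HeightOneSpectrum O} (hov : Ov Q 𝔓)
    (c : ℤ) : (c : O) ∈ 𝔓.asIdeal ↔ Q ∣ c := by
  constructor
  · intro hc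
    by_contra hn
    have hcop : IsCoprime Q c := (hQ.irreducible.coprime_iff_not_dvd).mpr hn
    obtain ⟨u, v, huv⟩ := hcop
    have : ((u * Q + v * c : ℤ) : O) ∈ 𝔓.asIdeal := by
      rw [Int.cast_add, Int.cast_mul, Int.cast_mul]
      exact Ideal.add_mem _ (Ideal.mul_mem_left _ _ hov) (Ideal.mul_mem_left _ _ hc)
    rw [huv, Int.cast_one] at this
    exact 𝔓.isPrime.ne_top ((Ideal.eq_top_iff_one _).mpr this)
  · rintro ⟨d, rfl⟩
    rw [Int.cast_mul]
    exact Ideal.mul_mem_right _ _ hov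

end basic

section ideals

variable {L O : Type} [Field L] [NumberField L] [CommRing O] [IsDedekindDomain O] [Algebra O L]
  [IsFractionRing O L] [IsIntegralClosure O ℤ L] {a b : ℤ} {θ : L}

/-- `(Q, θ)` -/
def J1 (Q : ℤ) (t : O) : Ideal O := Ideal.span {(Q : O), t}

/-- `(Q, θ ^ 2 + a)` -/
def J2 (Q a : ℤ) (t : O) : Ideal O := Ideal.span {(Q : O), t ^ 2 + (a : O)}

theorem Q_mem_J1 (Q : ℤ) (t : O) : (Q : O) ∈ J1 Q t := Ideal.subset_span (by simp)

theorem t_mem_J1 (Q : ℤ) (t : O) : t ∈ J1 Q t := Ideal.subset_span (by simp)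

theorem Q_mem_J2 (Q a : ℤ) (t : O) : (Q : O) ∈ J2 Q a t := Ideal.subset_span (by simp)

theorem t_mem_J2 (Q a : ℤ) (t : O) : t ^ 2 + (a : O) ∈ J2 Q a t := Ideal.subset_span (by simp)

theorem J1_ne (hI : S_INT) (h : IsCub a b θ) (hsq : Squarefree (dsc a b))
    {Q : ℤ} (hQ : Prime Q) (hQb : Q ∣ b) {t : O} (ht : algebraMap O L t = θ) :
    (1 : O) ∉ J1 Q t := by
  intro hm
  obtain ⟨x, y, hxy⟩ := Ideal.mem_span_pair.mp hm
  obtain ⟨u, hu⟩ := (hI L a b θ h hsq _).mp (isInt (L := L) x)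
  obtain ⟨v, hv⟩ := (hI L a b θ h hsq _).mp (isInt (L := L) y)
  have h1 := crd_add (crd_smul Q hu) (crd_mul_theta h hv)
  have h2 : (Q : L) * algebraMap O L x + θ * algebraMap O L y = 1 := by
    rw [← ht, ← map_intCast (algebraMap O L) Q, ← map_mul, ← map_mul, ← map_add,
      ← map_one (algebraMap O L), ← hxy]
    congr 1
    ring
  rw [h2] at h1
  have h3 := congrFun (crd_uniq h h1 crd_one) 0
  simp only [Matrix.cons_val_zero] at h3
  obtain ⟨c, rfl⟩ := hQb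
  exact hQ.not_unit (isUnit_of_dvd_one ⟨u 0 - c * v 2, by rw [← h3]; ring⟩)

theorem J2_ne (hI : S_INT) (h : IsCub a b θ) (hsq : Squarefree (dsc a b))
    {Q : ℤ} (hQ : Prime Q) (hQb : Q ∣ b) {t : O} (ht : algebraMap O L t = θ) :
    (1 : O) ∉ J2 Q a t := by
  intro hm
  obtain ⟨x, y, hxy⟩ := Ideal.mem_span_pair.mp hm
  obtain ⟨u, hu⟩ := (hI L a b θ h hsq _).mp (isInt (L := L) x)
  obtain ⟨v, hv⟩ := (hI L a b θ h hsq _).mp (isInt (L := L) y)
  have h1 := crd_add (crd_smul Q hu) (crd_mul_sq h hv)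
  have h2 : (Q : L) * algebraMap O L x + (θ ^ 2 + (a : L)) * algebraMap O L y = 1 := by
    rw [← ht, ← map_intCast (algebraMap O L) Q, ← map_intCast (algebraMap O L) a,
      ← map_pow, ← map_add, ← map_mul, ← map_mul, ← map_add,
      ← map_one (algebraMap O L), ← hxy]
    congr 1
    ring
  rw [h2] at h1
  have h3 := congrFun (crd_uniq h h1 crd_one) 0
  have h4 := congrFun (crd_uniq h h1 crd_one) 2
  simp only [Matrix.cons_val_zero, Matrix.cons_val] at h3 h4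
  obtain ⟨c, rfl⟩ := hQb
  have h5 : v 0 = - (Q * u 2) := by linear_combination h4
  rw [h5] at h3
  exact hQ.not_unit (isUnit_of_dvd_one ⟨u 0 - a * u 2 - c * v 1, by rw [← h3]; ring⟩)

theorem J1_rep (hI : S_INT) (h : IsCub a b θ) (hsq : Squarefree (dsc a b))
    {Q : ℤ} {t : O} (ht : algebraMap O L t = θ) (x : O) :
    ∃ c : ℤ, x - (c : O) ∈ J1 Q t := by
  obtain ⟨u, hu⟩ := (hI L a b θ h hsq _).mp (isInt (L := L) x)
  refine ⟨u 0, ?_⟩
  have : x - ((u 0 : ℤ) : O) = (((u 1 : ℤ) : O) + ((u 2 : ℤ) : O) * t) * t := by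
    apply IsFractionRing.injective O L
    unfold Crd at hu
    simp only [map_sub, map_mul, map_add, hu, map_intCast, ht]
    ring
  rw [this]
  exact Ideal.mul_mem_left _ _ (t_mem_J1 Q t)

theorem J2_rep (hI : S_INT) (h : IsCub a b θ) (hsq : Squarefree (dsc a b))
    {Q : ℤ} {t : O} (ht : algebraMap O L t = θ) (x : O) :
    ∃ c d : ℤ, x - ((c : O) + (d : O) * t) ∈ J2 Q a t := by
  obtain ⟨u, hu⟩ := (hI L a b θ h hsq _).mp (isInt (L := L) x)
  refine ⟨u 0 - a * u 2, u 1, ?_⟩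
  have : x - (((u 0 - a * u 2 : ℤ) : O) + ((u 1 : ℤ) : O) * t) =
      ((u 2 : ℤ) : O) * (t ^ 2 + (a : O)) := by
    apply IsFractionRing.injective O L
    unfold Crd at hu
    simp only [map_sub, map_mul, map_add, map_pow, hu, map_intCast, ht]
    push_cast
    ring
  rw [this]
  exact Ideal.mul_mem_left _ _ (t_mem_J2 Q a t)

theorem cop_mem {Q c : ℤ} (hQ : Prime Q) (hc : ¬ Q ∣ c) {J : Ideal O}
    (h1 : (Q : O) ∈ J) (h2 : (c : O) ∈ J) : (1 : O) ∈ J := by
  obtain ⟨u, v, huv⟩ := (hQ.irreducible.coprime_iff_not_dvd).mpr hc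
  have : ((u * Q + v * c : ℤ) : O) ∈ J := by
    rw [Int.cast_add, Int.cast_mul, Int.cast_mul]
    exact Ideal.add_mem _ (Ideal.mul_mem_left _ _ h1) (Ideal.mul_mem_left _ _ h2)
  rwa [huv, Int.cast_one] at this

theorem J1_max (hI : S_INT) (h : IsCub a b θ) (hsq : Squarefree (dsc a b))
    {Q : ℤ} (hQ : Prime Q) (hQb : Q ∣ b) {t : O} (ht : algebraMap O L t = θ) :
    (J1 Q t).IsMaximal := by
  rw [Ideal.isMaximal_iff]
  refine ⟨J1_ne hI h hsq hQ hQb ht, fun J x hJ hx hxJ => ?_⟩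
  obtain ⟨c, hc⟩ := J1_rep (L := L) hI h hsq (Q := Q) ht x
  have hcJ : (c : O) ∈ J := by
    have := J.sub_mem hxJ (hJ hc)
    rwa [sub_sub_cancel] at this
  have hnc : ¬ Q ∣ c := by
    rintro ⟨d, rfl⟩
    apply hx
    have := (J1 Q t).add_mem hc (Ideal.mul_mem_right (d : O) _ (Q_mem_J1 Q t))
    rwa [← Int.cast_mul, sub_add_cancel] at this
  exact cop_mem hQ hnc (hJ (Q_mem_J1 Q t)) hcJ

theorem nonres {Q c d : ℤ} (hQ : Prime Q) (hns : ∀ z : ℤ, ¬ Q ∣ z ^ 2 + a)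
    (h : Q ∣ c ^ 2 + a * d ^ 2) : Q ∣ c ∧ Q ∣ d := by
  have hd : Q ∣ d := by
    by_contra hd
    obtain ⟨u, v, huv⟩ := (hQ.irreducible.coprime_iff_not_dvd).mpr hd
    obtain ⟨e, he⟩ := h
    apply hns (v * c)
    refine ⟨v ^ 2 * e + a * u * (2 - u * Q), ?_⟩
    linear_combination v ^ 2 * he + (-(a * (v * d + 1 - u * Q))) * huv
  refine ⟨?_, hd⟩
  obtain ⟨e, rfl⟩ := hd
  have : Q ∣ c ^ 2 := by
    have h1 := dvd_sub h (Dvd.intro (a * Q * e ^ 2) rfl : Q ∣ Q * (a * Q * e ^ 2))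
    have h2 : c ^ 2 + a * (Q * e) ^ 2 - Q * (a * Q * e ^ 2) = c ^ 2 := by ring
    rwa [h2] at h1
  exact hQ.dvd_of_dvd_pow this

theorem J2_max (hI : S_INT) (h : IsCub a b θ) (hsq : Squarefree (dsc a b))
    {Q : ℤ} (hQ : Prime Q) (hQb : Q ∣ b) (hns : ∀ z : ℤ, ¬ Q ∣ z ^ 2 + a)
    {t : O} (ht : algebraMap O L t = θ) :
    (J2 Q a t).IsMaximal := by
  rw [Ideal.isMaximal_iff]
  refine ⟨J2_ne hI h hsq hQ hQb ht, fun J x hJ hx hxJ => ?_⟩
  obtain ⟨c, d, hc⟩ := J2_rep (L := L) hI h hsq (Q := Q) ht x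
  have hcJ : (c : O) + (d : O) * t ∈ J := by
    have := J.sub_mem hxJ (hJ hc)
    rwa [sub_sub_cancel] at this
  have hcd : ((c ^ 2 + a * d ^ 2 : ℤ) : O) ∈ J := by
    have e : ((c ^ 2 + a * d ^ 2 : ℤ) : O) =
        ((c : O) - (d : O) * t) * ((c : O) + (d : O) * t) + (d : O) ^ 2 * (t ^ 2 + (a : O)) := by
      push_cast
      ring
    rw [e]
    exact J.add_mem (J.mul_mem_left _ hcJ) (J.mul_mem_left _ (hJ (t_mem_J2 Q a t)))
  by_cases hdv : Q ∣ c ^ 2 + a * d ^ 2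
  · exfalso
    obtain ⟨⟨c', rfl⟩, d', rfl⟩ := nonres hQ hns hdv
    apply hx
    have h9 := (J2 Q a t).add_mem hc (Ideal.mul_mem_right ((c' : O) + (d' : O) * t) _
      (Q_mem_J2 Q a t))
    have e9 : x - (((Q * c' : ℤ) : O) + ((Q * d' : ℤ) : O) * t) + (Q : O) * ((c' : O) + (d' : O) * t)
        = x := by
      push_cast
      ring
    rwa [e9] at h9
  · exact cop_mem hQ hdv (hJ (Q_mem_J2 Q a t)) hcd

theorem J1_mul_J2 {Q : ℤ} (hQb : Q ∣ b) {t : O}
    (htr : t ^ 3 + (a : O) * t + (b : O) = 0) :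
    J1 Q t * J2 Q a t ≤ Ideal.span {(Q : O)} := by
  rw [J1, J2, Ideal.span_mul_span', Ideal.span_le]
  rintro x ⟨y, hy, z, hz, rfl⟩
  rw [SetLike.mem_coe, Ideal.mem_span_singleton]
  simp only [Set.mem_insert_iff, Set.mem_singleton_iff] at hy hz
  rcases hy with rfl | rfl
  · exact Dvd.intro _ rfl
  · rcases hz with rfl | rfl
    · exact Dvd.intro_left _ rfl
    · have : y * (y ^ 2 + (a : O)) = - (b : O) := by
        linear_combination htr
      simp only []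
      rw [this]
      obtain ⟨c, rfl⟩ := hQb
      exact ⟨- (c : O), by rw [Int.cast_mul]; ring⟩

end ideals

/-- parity of a valuation -/
theorem not_ev_of_exp {O L : Type} [CommRing O] [IsDedekindDomain O] [Field L] [Algebra O L]
    [IsFractionRing O L] {𝔓 : HeightOneSpectrum O} {x : L} {n : ℤ} (hx : 𝔓.valuation L x = exp n) :
    Ev 𝔓 x ↔ Even n := by
  constructor
  · rintro ⟨y, hy⟩
    have hy0 : 𝔓.valuation L y ≠ 0 := by
      intro h0
      rw [hx, h0] at hy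
      simp at hy
    obtain ⟨m, hm⟩ : ∃ m : ℤ, 𝔓.valuation L y = exp m := ⟨log (𝔓.valuation L y), (exp_log hy0).symm⟩
    rw [hx, hm, ← exp_nsmul, exp_inj] at hy
    exact ⟨m, by rw [hy]; simp; ring⟩
  · rintro ⟨m, rfl⟩
    obtain ⟨y, hy⟩ := 𝔓.valuation_surjective L (exp m)
    exact ⟨y, by rw [hx, hy, exp_add, sq]⟩

/-- **EXQ.** -/
theorem exq (hI : S_INT) : S_EXQ := by
  intro L O _ _ _ _ _ _ _ a b θ h hsq Q hQ hQb hns
  obtain ⟨t, ht, htr⟩ := exists_theta (O := O) h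
  have hQ0 : (Q : O) ≠ 0 := by
    intro h0
    have h1 : (Q : L) = 0 := by rw [← map_intCast (algebraMap O L) Q, h0, map_zero]
    exact hQ.ne_zero (by exact_mod_cast h1)
  have hb1 : (J1 Q t : Ideal O) ≠ ⊥ := fun h0 => hQ0 (by
    have := Q_mem_J1 (O := O) Q t
    rwa [h0, Ideal.mem_bot] at this)
  have hb2 : (J2 Q a t : Ideal O) ≠ ⊥ := fun h0 => hQ0 (by
    have := Q_mem_J2 (O := O) Q a t
    rwa [h0, Ideal.mem_bot] at this)
  have hm1 := J1_max (L := L) hI h hsq hQ hQb ht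
  have hm2 := J2_max (L := L) hI h hsq hQ hQb hns ht
  let 𝔓₁ : HeightOneSpectrum O := ⟨J1 Q t, hm1.isPrime, hb1⟩
  let 𝔮 : HeightOneSpectrum O := ⟨J2 Q a t, hm2.isPrime, hb2⟩
  have ov1 : Ov Q 𝔓₁ := Q_mem_J1 Q t
  have ov2 : Ov Q 𝔮 := Q_mem_J2 Q a t
  have hnt : t ∉ 𝔮.asIdeal := by
    intro hm
    have : (a : O) ∈ 𝔮.asIdeal := by
      have h1 := 𝔮.asIdeal.sub_mem (t_mem_J2 Q a t) (𝔮.asIdeal.mul_mem_left t hm)
      convert h1 using 1
      ring
    rw [ov_iff hQ ov2] at this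
    exact hns 0 (by simpa using this)
  have hvt : 𝔮.valuation L θ = 1 := by
    rw [← ht]
    exact 𝔮.valuation_eq_one_iff_notMem.mpr hnt
  refine ⟨𝔓₁, 𝔮, ov1, ov2, ?_, hvt, ?_, ?_⟩
  · rw [← ht]
    exact (𝔓₁.valuation_lt_one_iff_mem _).mpr (t_mem_J1 Q t)
  · have hQ2 : (Q : O) ∉ 𝔮.asIdeal ^ 2 := by
      intro hm
      have h1 : J1 Q t * J2 Q a t ≤ 𝔮.asIdeal ^ 2 :=
        (J1_mul_J2 hQb htr).trans ((Ideal.span_singleton_le_iff_mem _).mpr hm)
      rw [← Ideal.dvd_iff_le, sq] at h1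
      have h2 : 𝔮.asIdeal ∣ J1 Q t := (mul_dvd_mul_iff_right (a := 𝔮.asIdeal) hb2).mp h1
      rw [Ideal.dvd_iff_le] at h2
      exact hnt (h2 (t_mem_J1 Q t))
    have hv : 𝔮.valuation L ((Q : L) * θ) = exp (-1) := by
      rw [map_mul, hvt, mul_one, ← map_intCast (algebraMap O L) Q,
        HeightOneSpectrum.valuation_of_algebraMap]
      have h1 : 𝔮.intValuation (Q : O) ≤ exp (-((1 : ℕ) : ℤ)) :=
        (𝔮.intValuation_le_pow_iff_mem _ 1).mpr (by rw [pow_one]; exact ov2)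
      have h2 : ¬ 𝔮.intValuation (Q : O) ≤ exp (-((2 : ℕ) : ℤ)) := fun h =>
        hQ2 ((𝔮.intValuation_le_pow_iff_mem _ 2).mp h)
      have h3 := 𝔮.intValuation_ne_zero _ hQ0
      rw [← exp_log h3] at h1 h2 ⊢
      rw [exp_le_exp] at h1 h2
      rw [exp_inj]
      push_cast at h1 h2
      omega
    rw [not_ev_of_exp hv]
    decide
  · intro 𝔓 hov
    have hprod : t * (t ^ 2 + (a : O)) ∈ 𝔓.asIdeal := by
      have : t * (t ^ 2 + (a : O)) = - (b : O) := by
        linear_combination htr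
      rw [this]
      exact neg_mem ((ov_iff hQ hov b).mpr hQb)
    rcases 𝔓.isPrime.mem_or_mem hprod with hm | hm
    · left
      have hle : J1 Q t ≤ 𝔓.asIdeal := by
        rw [J1, Ideal.span_le]
        rintro x (rfl | rfl)
        · exact hov
        · exact hm
      exact (HeightOneSpectrum.ext (hm1.eq_of_le 𝔓.isPrime.ne_top hle)).symm
    · right
      have hle : J2 Q a t ≤ 𝔓.asIdeal := by
        rw [J2, Ideal.span_le]
        rintro x (rfl | rfl)
        · exact hov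
        · exact hm
      exact (HeightOneSpectrum.ext (hm2.eq_of_le 𝔓.isPrime.ne_top hle)).symm

end Pool.Agent.N747.PQ
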